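import Pool.Agent.W913.NA.Count

/-! Covering a null set of the plane by cells of prescribed sizes. -/

namespace Pool.Agent.W913.NA

open Set MeasureTheory Filter Topology

/-- the index of the cell of side `1/q` containing `z` -/
noncomputable def cell (q : ℕ) (z : ℝ × ℝ) : ℤ × ℤ := (⌊(q : ℝ) * z.1⌋, ⌊(q : ℝ) * z.2⌋)

theorem cell_preimage {q : ℕ} (hq : 0 < q) (c : ℤ × ℤ) :
    {z : ℝ × ℝ | cell q z = c} = Ico ((c.1 : ℝ) / q) (((c.1 : ℝ) + 1) / q) ×ˢ
      Ico ((c.2 : ℝ) / q) (((c.2 : ℝ) + 1) / q) := by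
  have hq' : (0 : ℝ) < q := by exact_mod_cast hq
  ext z
  simp only [cell, mem_ofPred_eq, mem_prod, mem_Ico, div_le_iff₀ hq', lt_div_iff₀ hq',
    Prod.ext_iff, Int.floor_eq_iff, mul_comm (q : ℝ)]

theorem volume_cell {q : ℕ} (hq : 0 < q) (c : ℤ × ℤ) :
    volume {z : ℝ × ℝ | cell q z = c} = ENNReal.ofReal (1 / (q : ℝ) ^ 2) := by
  have hq' : (0 : ℝ) < q := by exact_mod_cast hq
  rw [cell_preimage hq, Measure.volume_eq_prod, Measure.prod_prod, Real.volume_Ico,
    Real.volume_Ico, ← ENNReal.ofReal_mul]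
  · congr 1
    field_simp
    ring
  · rw [sub_nonneg]
    gcongr
    linarith

theorem measurable_cell {q : ℕ} (hq : 0 < q) (c : ℤ × ℤ) :
    MeasurableSet {z : ℝ × ℝ | cell q z = c} := by
  rw [cell_preimage hq]
  exact measurableSet_Ico.prod measurableSet_Ico

theorem card_cells_le {q : ℕ} (hq : 0 < q) {W : Set (ℝ × ℝ)} {v : ℝ} (hv : 0 ≤ v)
    (hW : volume W ≤ ENNReal.ofReal v) {E : Set (ℤ × ℤ)} (hE : ∀ z, cell q z ∈ E → z ∈ W) :
    E.Finite ∧ (E.ncard : ℝ) ≤ v * (q : ℝ) ^ 2 := by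
  have hq' : (0 : ℝ) < q := by exact_mod_cast hq
  have hfin : ∀ E' : Finset (ℤ × ℤ), (E' : Set (ℤ × ℤ)) ⊆ E → (E'.card : ℝ) ≤ v * (q : ℝ) ^ 2 := by
    intro E' hE'
    have h1 : (⋃ c ∈ E', {z : ℝ × ℝ | cell q z = c}) ⊆ W := by
      intro z hz
      simp only [mem_iUnion, mem_ofPred_eq, exists_prop, exists_eq_right'] at hz
      exact hE z (hE' hz)
    have h2 := (measure_mono h1).trans hW
    rw [measure_biUnion_finset (fun c _ c' _ hne => by
      rw [Function.onFun, disjoint_left]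
      intro z hz hz'
      exact hne (hz.symm.trans hz')) (fun c _ => measurable_cell hq c),
      Finset.sum_congr rfl (fun c _ => volume_cell hq c), Finset.sum_const, nsmul_eq_mul,
      ← ENNReal.ofReal_natCast, ← ENNReal.ofReal_mul (by positivity),
      ENNReal.ofReal_le_ofReal_iff hv] at h2
    rw [mul_one_div, div_le_iff₀ (by positivity)] at h2
    exact h2
  have hf : E.Finite := by
    by_contra hinf
    obtain ⟨n, hn⟩ := exists_nat_gt (v * (q : ℝ) ^ 2)
    obtain ⟨E', h1, h2⟩ := Set.Infinite.exists_subset_card_eq hinf n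
    have := hfin E' h1
    rw [h2] at this
    linarith
  refine ⟨hf, ?_⟩
  rw [ncard_eq_toFinset_card _ hf]
  exact hfin _ (by simp)

/-- union of the cells of side `1/q` contained in `O` -/
def inner (O : Set (ℝ × ℝ)) (q : ℕ) : Set (ℝ × ℝ) := {z | ∀ w, cell q w = cell q z → w ∈ O}

theorem inner_subset (O : Set (ℝ × ℝ)) (q : ℕ) : inner O q ⊆ O := fun z hz => hz z rfl

theorem dist_of_cell {q : ℕ} (hq : 0 < q) {z w : ℝ × ℝ} (h : cell q w = cell q z) :
    dist w z < 1 / q := by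
  have hq' : (0 : ℝ) < q := by exact_mod_cast hq
  simp only [cell, Prod.mk.injEq] at h
  have key : ∀ a b : ℝ, ⌊(q : ℝ) * a⌋ = ⌊(q : ℝ) * b⌋ → |a - b| < 1 / q := by
    intro a b hab
    have := Int.abs_sub_lt_one_of_floor_eq_floor hab
    rw [lt_div_iff₀ hq']
    calc |a - b| * q = |q * a - q * b| := by
          rw [← mul_sub, abs_mul, abs_of_pos hq', mul_comm]
      _ < 1 := this
  rw [Prod.dist_eq, max_lt_iff, Real.dist_eq, Real.dist_eq]
  exact ⟨key _ _ h.1, key _ _ h.2⟩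

theorem exists_threshold {O : Set (ℝ × ℝ)} (hO : IsOpen O) (hfin : volume O ≠ ⊤) {ε : ℝ}
    (hε : 0 < ε) : ∃ Q : ℕ, ∀ q, Q ≤ q → 0 < q →
      volume (O \ inner O q) ≤ ENNReal.ofReal ε := by
  have hε' : ENNReal.ofReal ε ≠ 0 := by
    rw [Ne, ENNReal.ofReal_eq_zero, not_le]; exact hε
  obtain ⟨Kc, hKO, hKc, hK⟩ := hO.measurableSet.exists_isCompact_sdiff_lt hfin hε'
  obtain ⟨r, hr, hrO⟩ := hKc.exists_thickening_subset_open hO hKO
  obtain ⟨Q, hQ⟩ := exists_nat_gt (1 / r)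
  refine ⟨Q, fun q hq hq0 => ?_⟩
  have hq' : (0 : ℝ) < q := by exact_mod_cast hq0
  refine (measure_mono ?_).trans hK.le
  apply sdiff_subset_sdiff_right
  intro z hz w hw
  apply hrO
  rw [Metric.mem_thickening_iff]
  refine ⟨z, hz, (dist_of_cell hq0 hw).trans_le ?_⟩
  rw [div_le_iff₀ hq', ← div_le_iff₀' hr]
  have : (Q : ℝ) ≤ q := by exact_mod_cast hq
  linarith

theorem cell_refine {q M : ℕ} (hM : 0 < M) {z w : ℝ × ℝ} (h : cell (q * M) w = cell (q * M) z) :
    cell q w = cell q z := by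
  simp only [cell, Prod.mk.injEq] at h ⊢
  rw [← floor_mul_div hM, ← floor_mul_div hM (x := w.2), ← floor_mul_div hM (x := z.1),
    ← floor_mul_div hM (x := z.2), h.1, h.2]
  exact ⟨rfl, rfl⟩

theorem cell_refine' {q M : ℕ → ℕ} (hM : ∀ n, 0 < M n) (hq : ∀ n, q (n + 1) = q n * M n)
    {m n : ℕ} (hmn : m ≤ n) {z w : ℝ × ℝ} (h : cell (q n) w = cell (q n) z) :
    cell (q m) w = cell (q m) z := by
  induction n, hmn using Nat.le_induction with
  | base => exact h
  | succ n _ ih =>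
    rw [hq] at h
    exact ih (cell_refine (hM n) h)

/-- A null set of the plane is contained in the limsup of small finite unions of cells. -/
theorem exists_cells {N : Set (ℝ × ℝ)} (hN : volume N = 0) (δ : ℕ → ℝ) (hδ : ∀ n, 0 < δ n) :
    ∃ Q : ℕ → ℕ, ∀ q M : ℕ → ℕ, (∀ n, 0 < q n) → (∀ n, 0 < M n) →
      (∀ n, q (n + 1) = q n * M n) → (∀ n, Q n ≤ q n) →
      ∃ B : ℕ → Finset (ℤ × ℤ), (∀ n, ((B n).card : ℝ) ≤ δ n * (q n : ℝ) ^ 2) ∧
        ∀ z ∈ N, ∃ᶠ n in atTop, cell (q n) z ∈ B n := by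
  classical
  have hO : ∀ k : ℕ, ∃ O : Set (ℝ × ℝ), N ⊆ O ∧ IsOpen O ∧
      volume O < ENNReal.ofReal (δ k / 2) := by
    intro k
    have : volume N < ENNReal.ofReal (δ k / 2) := by
      rw [hN, ENNReal.ofReal_pos]
      have := hδ k
      linarith
    obtain ⟨O, h1, h2, h3⟩ := N.exists_isOpen_lt_of_lt _ this
    exact ⟨O, h1, h2, h3⟩
  choose O hNO hOo hOv using hO
  -- `O k` plays the role of `U_{k+1}`
  have hfin : ∀ k, volume (O k) ≠ ⊤ := fun k => ((hOv k).trans ENNReal.ofReal_lt_top).ne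
  have hth : ∀ k n : ℕ, ∃ Q : ℕ, ∀ q, Q ≤ q → 0 < q →
      volume (O k \ inner (O k) q) ≤ ENNReal.ofReal (δ (n + 1) / (2 * (n + 1))) := by
    intro k n
    exact exists_threshold (hOo k) (hfin k) (by have := hδ (n + 1); positivity)
  choose T hT using hth
  refine ⟨fun n => max (n + 1) ((Finset.range (n + 1)).sup (fun k => T k n)), ?_⟩
  intro q M hq0 hM hq hQ
  -- the first family
  let E1 : ℕ → Set (ℤ × ℤ) := fun n => {c | ∀ z, cell (q n) z = c → z ∈ O n}
  have hE1 : ∀ n, (E1 n).Finite ∧ ((E1 n).ncard : ℝ) ≤ δ n / 2 * (q n : ℝ) ^ 2 := by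
    intro n
    refine card_cells_le (hq0 n) (by have := hδ n; linarith) (hOv n).le ?_
    intro z hz
    exact hz z rfl
  let E2 : ℕ → ℕ → Set (ℤ × ℤ) := fun k n =>
    {c | ∀ z, cell (q (n + 1)) z = c → z ∈ O k \ inner (O k) (q n)}
  have hE2 : ∀ n, ∀ k < n + 1, (E2 k n).Finite ∧
      ((E2 k n).ncard : ℝ) ≤ δ (n + 1) / (2 * (n + 1)) * (q (n + 1) : ℝ) ^ 2 := by
    intro n k hk
    refine card_cells_le (W := O k \ inner (O k) (q n)) (hq0 (n + 1))
      (by have := hδ (n + 1); positivity) ?_ ?_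
    · apply hT k n (q n) _ (hq0 n)
      refine le_trans ?_ ((le_max_right _ _).trans (hQ n))
      exact Finset.le_sup (f := fun k => T k n) (Finset.mem_range.mpr hk)
    · intro z hz
      exact hz z rfl
  let B : ℕ → Set (ℤ × ℤ) := fun n =>
    match n with
    | 0 => E1 0
    | n + 1 => E1 (n + 1) ∪ ⋃ k ∈ Finset.range (n + 1), E2 k n
  have hB : ∀ n, (B n).Finite ∧ ((B n).ncard : ℝ) ≤ δ n * (q n : ℝ) ^ 2 := by
    intro n
    match n with
    | 0 =>
      refine ⟨(hE1 0).1, (hE1 0).2.trans ?_⟩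
      have := hδ 0
      gcongr
      linarith
    | n + 1 =>
      have hUf : (⋃ k ∈ Finset.range (n + 1), E2 k n).Finite :=
        Set.Finite.biUnion (Finset.finite_toSet _)
          (fun k hk => (hE2 n k (by simpa using hk)).1)
      refine ⟨(hE1 (n + 1)).1.union hUf, ?_⟩
      have h1 : (B (n + 1)).ncard ≤ (E1 (n + 1)).ncard +
          (⋃ k ∈ Finset.range (n + 1), E2 k n).ncard := ncard_union_le _ _
      have h2 : ((⋃ k ∈ Finset.range (n + 1), E2 k n).ncard : ℝ) ≤
          ∑ k ∈ Finset.range (n + 1), ((E2 k n).ncard : ℝ) := by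
        have : (⋃ k ∈ Finset.range (n + 1), E2 k n).ncard ≤
            ∑ k ∈ Finset.range (n + 1), (E2 k n).ncard := by
          exact Finset.set_ncard_biUnion_le _ _
        exact_mod_cast this
      have h3 : ∑ k ∈ Finset.range (n + 1), ((E2 k n).ncard : ℝ) ≤
          (n + 1) * (δ (n + 1) / (2 * (n + 1)) * (q (n + 1) : ℝ) ^ 2) := by
        refine (Finset.sum_le_card_nsmul _ _ _
          (fun k hk => (hE2 n k (Finset.mem_range.mp hk)).2)).trans ?_
        rw [Finset.card_range, nsmul_eq_mul]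
        push_cast
        rfl
      have h4 : ((B (n + 1)).ncard : ℝ) ≤ (E1 (n + 1)).ncard +
          (⋃ k ∈ Finset.range (n + 1), E2 k n).ncard := by exact_mod_cast h1
      have h5 := (hE1 (n + 1)).2
      have h6 : ((n : ℝ) + 1) * (δ (n + 1) / (2 * (n + 1)) * (q (n + 1) : ℝ) ^ 2) =
          δ (n + 1) / 2 * (q (n + 1) : ℝ) ^ 2 := by
        field_simp
      calc ((B (n + 1)).ncard : ℝ) ≤ δ (n + 1) / 2 * (q (n + 1) : ℝ) ^ 2 +
            δ (n + 1) / 2 * (q (n + 1) : ℝ) ^ 2 := by rw [h6] at h3; linarith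
        _ = _ := by ring
  refine ⟨fun n => (hB n).1.toFinset, ?_, ?_⟩
  · intro n
    rw [← ncard_eq_toFinset_card _ (hB n).1]
    exact (hB n).2
  · intro z hz
    rw [frequently_atTop]
    intro n0
    -- use the open set `O n0`
    have hex : ∃ n, z ∈ inner (O n0) (q n) := by
      obtain ⟨r, hr, hrO⟩ := Metric.isOpen_iff.mp (hOo n0) z (hNO n0 hz)
      obtain ⟨n, hn⟩ := exists_nat_gt (1 / r)
      refine ⟨n, fun w hw => hrO ?_⟩
      rw [Metric.mem_ball]
      refine (dist_of_cell (hq0 n) hw).trans_le ?_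
      have h1 : (n : ℝ) ≤ q n := by
        have := (le_max_left _ _).trans (hQ n)
        exact_mod_cast (by omega : n ≤ q n)
      have hq' : (0 : ℝ) < q n := by exact_mod_cast hq0 n
      rw [div_le_iff₀ hq', ← div_le_iff₀' hr]
      linarith
    set n := Nat.find hex with hn
    have hnz : z ∈ inner (O n0) (q n) := Nat.find_spec hex
    by_cases hcase : n ≤ n0
    · -- then the cell of level `n0` is contained in `O n0`
      refine ⟨n0, le_rfl, ?_⟩
      rw [Set.Finite.mem_toFinset]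
      have h1 : cell (q n0) z ∈ E1 n0 := by
        intro w hw
        exact hnz w (cell_refine' hM hq hcase hw)
      match n0, h1 with
      | 0, h1 => exact h1
      | n0 + 1, h1 => exact Or.inl h1
    · push Not at hcase
      refine ⟨n, hcase.le, ?_⟩
      rw [Set.Finite.mem_toFinset]
      obtain ⟨m, hm⟩ : ∃ m, n = m + 1 := ⟨n - 1, by omega⟩
      rw [hm]
      right
      simp only [mem_iUnion]
      refine ⟨n0, Finset.mem_range.mpr (by omega), ?_⟩
      intro w hw
      refine ⟨hnz w (by rw [hm]; exact hw), ?_⟩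
      intro hw2
      have h1 : z ∈ inner (O n0) (q m) := by
        intro v hv
        apply hw2
        rw [hv]
        exact (cell_refine' hM hq (Nat.le_succ m) hw).symm
      have h2 : n ≤ m := Nat.find_min' hex h1
      omega

end Pool.Agent.W913.NA
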