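import Mathlib

/-! A thin subset of `ℤ/M` such that few translates cover a tenth of the group. -/

namespace Pool.Agent.W913.NA

open Finset

theorem cover_of_corr {G : Type*} [AddCommGroup G] [Fintype G] [DecidableEq G] (C : Finset G)
    (b : ℕ) (hb : ∀ g : G, g ≠ 0 → (C.filter (fun c => c + g ∈ C)).card ≤ b) (D : Finset G) :
    (D.card * C.card) ^ 2 ≤ (univ.filter (fun e => ∃ d ∈ D, e - d ∈ C)).card *
      (D.card * C.card + D.card ^ 2 * b) := by
  classical
  set U : Finset G := univ.filter (fun e => ∃ d ∈ D, e - d ∈ C) with hU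
  let ind : G → G → ℕ := fun e d => if e - d ∈ C then 1 else 0
  let f : G → ℕ := fun e => ∑ d ∈ D, ind e d
  have hone : ∀ d, ∑ e, ind e d = C.card := by
    intro d
    simp only [ind]
    rw [← card_filter]
    apply card_bij (fun e _ => e - d)
    · intro e he
      simpa using he
    · intro e _ e' _ h
      simpa using h
    · intro c hc
      exact ⟨c + d, by simpa using hc, by simp⟩
  have hsum : ∑ e, f e = D.card * C.card := by
    simp only [f]
    rw [sum_comm, sum_congr rfl (fun d _ => hone d), sum_const, smul_eq_mul]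
  have hzero : ∀ e, e ∉ U → f e = 0 := by
    intro e he
    apply sum_eq_zero
    intro d hd
    simp only [ind]
    rw [if_neg]
    intro h
    exact he (by rw [hU, mem_filter]; exact ⟨mem_univ _, d, hd, h⟩)
  have hsumU : ∑ e ∈ U, f e = D.card * C.card := by
    rw [← hsum]
    exact sum_subset (subset_univ _) (fun e _ he => hzero e he)
  have hpair : ∀ d ∈ D, ∀ d' ∈ D, ∑ e, ind e d * ind e d' ≤ if d = d' then C.card else b := by
    intro d _ d' _
    by_cases h : d = d'
    · subst h
      rw [if_pos rfl, ← hone d]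
      apply sum_le_sum
      intro e _
      simp only [ind]
      split_ifs <;> simp
    · rw [if_neg h]
      refine le_trans ?_ (hb (d - d') (sub_ne_zero.mpr h))
      have : ∀ e, ind e d * ind e d' = if (e - d ∈ C ∧ e - d' ∈ C) then 1 else 0 := by
        intro e
        simp only [ind]
        by_cases h1 : e - d ∈ C <;> by_cases h2 : e - d' ∈ C <;> simp [h1, h2]
      rw [sum_congr rfl (fun e _ => this e), ← card_filter]
      apply card_le_card_of_injOn (fun e => e - d)
      · intro e he
        simp only [coe_filter, mem_univ, true_and, Set.mem_ofPred_eq] at he ⊢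
        refine ⟨he.1, ?_⟩
        have : e - d + (d - d') = e - d' := by abel
        rw [this]
        exact he.2
      · intro e _ e' _ h
        simpa using h
  have hsq : ∑ e, f e ^ 2 ≤ D.card * C.card + D.card ^ 2 * b := by
    have h1 : ∀ e, f e ^ 2 = ∑ d ∈ D, ∑ d' ∈ D, ind e d * ind e d' := by
      intro e
      rw [sq]
      exact sum_mul_sum _ _ _ _
    rw [sum_congr rfl (fun e _ => h1 e), sum_comm]
    have h2 : ∀ d ∈ D, ∑ e, ∑ d' ∈ D, ind e d * ind e d' ≤ C.card + D.card * b := by
      intro d hd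
      rw [sum_comm]
      calc ∑ d' ∈ D, ∑ e, ind e d * ind e d' ≤ ∑ d' ∈ D, (if d = d' then C.card else b) :=
            sum_le_sum (fun d' hd' => hpair d hd d' hd')
        _ ≤ ∑ d' ∈ D, ((if d = d' then C.card else 0) + b) := by
            apply sum_le_sum
            intro d' _
            split_ifs <;> simp
        _ = C.card + D.card * b := by
            rw [sum_add_distrib, sum_const, smul_eq_mul, sum_ite_eq, if_pos hd]
    calc ∑ d ∈ D, ∑ e, ∑ d' ∈ D, ind e d * ind e d' ≤ ∑ d ∈ D, (C.card + D.card * b) :=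
          sum_le_sum h2
      _ = D.card * C.card + D.card ^ 2 * b := by
          rw [sum_const, smul_eq_mul]
          ring
  calc (D.card * C.card) ^ 2 = (∑ e ∈ U, f e) ^ 2 := by rw [hsumU]
    _ ≤ U.card * ∑ e ∈ U, f e ^ 2 := sq_sum_le_card_mul_sum_sq
    _ ≤ U.card * ∑ e, f e ^ 2 := by
        apply Nat.mul_le_mul_left
        exact sum_le_sum_of_subset (subset_univ _)
    _ ≤ _ := Nat.mul_le_mul_left _ hsq

section concrete

variable (p : ℕ) [hp : Fact p.Prime]

/-- the representative of a residue mod `p - 1` in `ℤ/p` -/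
def bar (a : ZMod (p - 1)) : ZMod p := (a.val : ZMod p)

/-- the thin set -/
def thin (κ : ℕ) : Finset (ZMod (p - 1) × ZMod p) :=
  ((univ : Finset (Fin (p - 1))) ×ˢ range κ).image
    (fun q => (((q.1 : ℕ) : ZMod (p - 1)), ((q.2 + 1 : ℕ) : ZMod p) * ((q.1 : ℕ) : ZMod p) ^ 2))

theorem mem_thin [NeZero (p - 1)] {κ : ℕ} {a : ZMod (p - 1)} {b : ZMod p} :
    (a, b) ∈ thin p κ ↔ ∃ s < κ, b = ((s + 1 : ℕ) : ZMod p) * bar p a ^ 2 := by
  simp only [thin, mem_image, mem_product, mem_univ, true_and, Prod.exists, Prod.mk.injEq,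
    mem_range, bar]
  constructor
  · rintro ⟨i, s, hs, h1, h2⟩
    refine ⟨s, hs, ?_⟩
    rw [← h1, ZMod.val_natCast, Nat.mod_eq_of_lt i.2, ← h2]
  · rintro ⟨s, hs, h⟩
    refine ⟨⟨a.val, ZMod.val_lt a⟩, s, hs, ?_, h.symm⟩
    exact ZMod.natCast_zmod_val a

theorem card_thin_le (κ : ℕ) : (thin p κ).card ≤ (p - 1) * κ := by
  refine card_image_le.trans ?_
  rw [card_product]
  simp

theorem le_card_thin [NeZero (p - 1)] {κ : ℕ} (hκ : κ < p) : (p - 2) * κ ≤ (thin p κ).card := by
  have hp1 : 1 < p := hp.out.one_lt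
  have h1 : (((univ : Finset (Fin (p - 1))).filter (fun i : Fin (p - 1) => (i : ℕ) ≠ 0)) ×ˢ
      range κ).card =
      (p - 2) * κ := by
    rw [card_product, card_range]
    congr 1
    have h0 : 0 < p - 1 := Nat.pos_of_ne_zero (NeZero.ne _)
    have : ((univ : Finset (Fin (p - 1))).filter (fun i : Fin (p - 1) => (i : ℕ) ≠ 0)) =
        univ.erase ⟨0, h0⟩ := by
      ext i
      rw [mem_filter, mem_erase]
      constructor
      · rintro ⟨_, h⟩
        exact ⟨fun h' => h (by rw [h']), mem_univ _⟩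
      · rintro ⟨h, _⟩
        exact ⟨mem_univ _, fun h' => h (Fin.ext h')⟩
    rw [this, card_erase_of_mem (mem_univ _), card_univ, Fintype.card_fin]
    omega
  rw [← h1]
  refine card_le_card_of_injOn
    (fun q => (((q.1 : ℕ) : ZMod (p - 1)), ((q.2 + 1 : ℕ) : ZMod p) * ((q.1 : ℕ) : ZMod p) ^ 2))
    ?_ ?_
  · rintro ⟨i, s⟩ h
    simp only [coe_product, Set.mem_prod, coe_filter, mem_univ, true_and, Set.mem_ofPred_eq,
      coe_range, Set.mem_Iio] at h
    simp only [thin, coe_image, Set.mem_image, coe_product, coe_univ, Set.mem_prod, Set.mem_univ,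
      true_and, coe_range, Set.mem_Iio, Prod.exists]
    exact ⟨i, s, h.2, rfl⟩
  · rintro ⟨i, s⟩ h ⟨i', s'⟩ h' heq
    simp only [coe_product, Set.mem_prod, coe_filter, mem_univ, true_and, Set.mem_ofPred_eq,
      coe_range, Set.mem_Iio] at h h'
    simp only [Prod.mk.injEq] at heq
    obtain ⟨e1, e2⟩ := heq
    have hi : i = i' := by
      rw [ZMod.natCast_eq_natCast_iff', Nat.mod_eq_of_lt i.2, Nat.mod_eq_of_lt i'.2] at e1
      exact Fin.ext e1
    subst hi
    have hi0 : ((i : ℕ) : ZMod p) ≠ 0 := by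
      rw [Ne, ZMod.natCast_eq_zero_iff]
      intro hdvd
      have := Nat.le_of_dvd (Nat.pos_of_ne_zero h.1) hdvd
      have := i.2
      omega
    have e3 := mul_right_cancel₀ (pow_ne_zero 2 hi0) e2
    rw [ZMod.natCast_eq_natCast_iff', Nat.mod_eq_of_lt (by omega), Nat.mod_eq_of_lt (by omega)]
      at e3
    have : s = s' := by omega
    rw [this]

/-- a quadratic equation over a field which is not an identity has at most two roots -/
theorem card_roots_quadratic {F : Type*} [Field F] [Fintype F] [DecidableEq F] (u v w : F)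
    (h : ¬ (u = 0 ∧ v = 0 ∧ w = 0)) :
    (univ.filter (fun x : F => u * x ^ 2 + v * x + w = 0)).card ≤ 2 := by
  open Polynomial in
  let P : F[X] := C u * X ^ 2 + C v * X + C w
  have hP : P ≠ 0 := by
    intro h0
    apply h
    refine ⟨?_, ?_, ?_⟩
    · have := congrArg (fun Q => Q.coeff 2) h0
      simpa [P, coeff_X, coeff_C] using this
    · have := congrArg (fun Q => Q.coeff 1) h0
      simpa [P, coeff_X, coeff_C] using this
    · have := congrArg (fun Q => Q.coeff 0) h0
      simpa [P, coeff_X, coeff_C] using this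
  have hsub : (univ.filter (fun x : F => u * x ^ 2 + v * x + w = 0)) ⊆ P.roots.toFinset := by
    intro x hx
    rw [mem_filter] at hx
    rw [Multiset.mem_toFinset, Polynomial.mem_roots hP, Polynomial.IsRoot.def]
    simpa [P] using hx.2
  refine (card_le_card hsub).trans ((Multiset.toFinset_card_le _).trans
    ((Polynomial.card_roots' P).trans ?_))
  exact Polynomial.natDegree_quadratic_le

theorem bar_add (hp2 : 2 < p) (a α : ZMod (p - 1)) :
    bar p (a + α) = bar p a + bar p α ∨ bar p (a + α) = bar p a + (bar p α + 1) := by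
  have : NeZero (p - 1) := ⟨by omega⟩
  unfold bar
  rw [ZMod.val_add]
  have h1 := ZMod.val_lt a
  have h2 := ZMod.val_lt α
  by_cases h : a.val + α.val < p - 1
  · left
    rw [Nat.mod_eq_of_lt h]
    push_cast
    ring
  · right
    have h3 : (a.val + α.val) % (p - 1) = a.val + α.val - (p - 1) := by
      rw [Nat.mod_eq_sub_mod (by omega), Nat.mod_eq_of_lt (by omega)]
    rw [h3]
    have h4 : a.val + α.val - (p - 1) + p = a.val + α.val + 1 := by omega
    have h5 : ((a.val + α.val - (p - 1) : ℕ) : ZMod p) + (p : ZMod p) =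
        (a.val : ZMod p) + (α.val : ZMod p) + 1 := by
      exact_mod_cast congrArg (Nat.cast : ℕ → ZMod p) h4
    rw [ZMod.natCast_self, add_zero] at h5
    rw [h5]
    ring

theorem bar_injective (hp2 : 2 < p) : Function.Injective (bar p) := by
  have : NeZero (p - 1) := ⟨by omega⟩
  intro a a' h
  unfold bar at h
  have h1 := ZMod.val_lt a
  have h2 := ZMod.val_lt a'
  rw [ZMod.natCast_eq_natCast_iff', Nat.mod_eq_of_lt (by omega), Nat.mod_eq_of_lt (by omega)] at h
  exact ZMod.val_injective _ h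

theorem bar_ne (hp2 : 2 < p) {α : ZMod (p - 1)} (hα : α ≠ 0) :
    bar p α ≠ 0 ∧ bar p α + 1 ≠ 0 := by
  have : NeZero (p - 1) := ⟨by omega⟩
  have h1 := ZMod.val_lt α
  have h2 : α.val ≠ 0 := by rwa [Ne, ZMod.val_eq_zero]
  constructor
  · unfold bar
    rw [Ne, ZMod.natCast_eq_zero_iff]
    intro hd
    have := Nat.le_of_dvd (Nat.pos_of_ne_zero h2) hd
    omega
  · unfold bar
    have : ((α.val : ZMod p)) + 1 = ((α.val + 1 : ℕ) : ZMod p) := by push_cast; rfl
    rw [this, Ne, ZMod.natCast_eq_zero_iff]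
    intro hd
    have := Nat.le_of_dvd (by omega) hd
    omega

theorem corr_thin (hp2 : 2 < p) [NeZero (p - 1)] {κ : ℕ} (hκ : κ < p)
    (g : ZMod (p - 1) × ZMod p)
    (hg : g ≠ 0) : ((thin p κ).filter (fun c => c + g ∈ thin p κ)).card ≤ 4 * κ ^ 2 := by
  classical
  obtain ⟨α, β⟩ := g
  -- for all `s t γ`, the set of solutions
  let R : ℕ → ℕ → ZMod p → Finset (ZMod (p - 1)) := fun s t γ =>
    univ.filter (fun a => ((s + 1 : ℕ) : ZMod p) * bar p a ^ 2 + β =
      ((t + 1 : ℕ) : ZMod p) * (bar p a + γ) ^ 2)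
  have hR : ∀ s < κ, ∀ t < κ, ∀ γ : ZMod p, (γ ≠ 0 ∨ β ≠ 0) → (R s t γ).card ≤ 2 := by
    intro s hs t ht γ hγ
    refine le_trans ?_ (card_roots_quadratic
      (((s + 1 : ℕ) : ZMod p) - ((t + 1 : ℕ) : ZMod p))
      (-2 * ((t + 1 : ℕ) : ZMod p) * γ) (β - ((t + 1 : ℕ) : ZMod p) * γ ^ 2) ?_)
    · apply card_le_card_of_injOn (bar p)
      · intro a ha
        simp only [R, coe_filter, mem_univ, true_and, Set.mem_ofPred_eq] at ha ⊢
        linear_combination ha
      · intro a _ a' _ h
        exact bar_injective p hp2 h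
    · rintro ⟨h1, h2, h3⟩
      have ht0 : ((t + 1 : ℕ) : ZMod p) ≠ 0 := by
        rw [Ne, ZMod.natCast_eq_zero_iff]
        intro hd
        have := Nat.le_of_dvd (by omega) hd
        omega
      have h20 : (2 : ZMod p) ≠ 0 := by
        have : ((2 : ℕ) : ZMod p) ≠ 0 := by
          rw [Ne, ZMod.natCast_eq_zero_iff]
          intro hd
          have := Nat.le_of_dvd (by omega) hd
          omega
        exact_mod_cast this
      have hγ0 : γ = 0 := by
        by_contra hne
        exact mul_ne_zero (mul_ne_zero (neg_ne_zero.mpr h20) ht0) hne h2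
      rw [hγ0] at h3 hγ
      rcases hγ with h | h
      · exact h rfl
      · apply h
        simpa using h3
  have hsub : ((thin p κ).filter (fun c => c + (α, β) ∈ thin p κ)) ⊆
      (range κ).biUnion (fun s => (range κ).biUnion (fun t =>
        ((if α = 0 then R s t 0 else R s t (bar p α) ∪ R s t (bar p α + 1))).image
          (fun a => (a, ((s + 1 : ℕ) : ZMod p) * bar p a ^ 2)))) := by
    rintro ⟨a, b⟩ hab
    rw [mem_filter] at hab
    obtain ⟨h1, h2⟩ := hab
    rw [Prod.mk_add_mk] at h2
    obtain ⟨s, hs, hbs⟩ := (mem_thin p).mp h1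
    obtain ⟨t, ht, hbt⟩ := (mem_thin p).mp h2
    simp only [mem_biUnion, mem_range, mem_image]
    refine ⟨s, hs, t, ht, a, ?_, by rw [hbs]⟩
    by_cases hα : α = 0
    · rw [if_pos hα]
      simp only [R, mem_filter, mem_univ, true_and]
      rw [hα, add_zero] at hbt
      rw [add_zero, ← hbt, hbs]
    · rw [if_neg hα]
      rcases bar_add p hp2 a α with h | h
      · apply mem_union_left
        simp only [R, mem_filter, mem_univ, true_and]
        rw [← h, ← hbt, hbs]
      · apply mem_union_right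
        simp only [R, mem_filter, mem_univ, true_and]
        rw [← h, ← hbt, hbs]
  refine (card_le_card hsub).trans ?_
  have hin : ∀ s ∈ range κ, ∀ t ∈ range κ,
      (((if α = 0 then R s t 0 else R s t (bar p α) ∪ R s t (bar p α + 1))).image
          (fun a => (a, ((s + 1 : ℕ) : ZMod p) * bar p a ^ 2))).card ≤ 4 := by
    intro s hs t ht
    refine card_image_le.trans ?_
    rw [mem_range] at hs ht
    by_cases hα : α = 0
    · rw [if_pos hα]
      have hβ : β ≠ 0 := fun h => hg (by rw [hα, h]; rfl)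
      exact (hR s hs t ht 0 (Or.inr hβ)).trans (by norm_num)
    · rw [if_neg hα]
      obtain ⟨g1, g2⟩ := bar_ne p hp2 hα
      refine (card_union_le _ _).trans ?_
      have h1 := hR s hs t ht _ (Or.inl g1)
      have h2 := hR s hs t ht _ (Or.inl g2)
      omega
  calc _ ≤ ∑ s ∈ range κ, ((range κ).biUnion (fun t =>
        ((if α = 0 then R s t 0 else R s t (bar p α) ∪ R s t (bar p α + 1))).image
          (fun a => (a, ((s + 1 : ℕ) : ZMod p) * bar p a ^ 2)))).card := card_biUnion_le
    _ ≤ ∑ s ∈ range κ, ∑ t ∈ range κ, 4 := by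
        apply sum_le_sum
        intro s hs
        exact card_biUnion_le.trans (sum_le_sum (fun t ht => hin s hs t ht))
    _ = 4 * κ ^ 2 := by
        simp only [sum_const, card_range, smul_eq_mul]
        ring

end concrete

/-- For every `k` there are arbitrarily large `M` and sets `C ⊆ ℤ/M` of density at most `1/k` such
that the union of any `k` translates has density at least `1/20`. -/
theorem exists_thin (k : ℕ) (hk : 0 < k) (B : ℕ) : ∃ M, B ≤ M ∧ 0 < M ∧ ∃ C : Finset (ZMod M),
    k * C.card ≤ M ∧ ∀ D : Finset (ZMod M), k ≤ D.card →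
      ∀ F : Finset (ZMod M), (∀ e ∈ F, ∀ d ∈ D, e - d ∉ C) → 20 * F.card ≤ 19 * M := by
  classical
  obtain ⟨p, hpB, hpp⟩ := Nat.exists_infinite_primes (max B (100 * k))
  have : Fact p.Prime := ⟨hpp⟩
  have hpk : 100 * k ≤ p := (le_max_right _ _).trans hpB
  have hp2 : 2 < p := by omega
  have : NeZero (p - 1) := ⟨by omega⟩
  have : NeZero p := ⟨by omega⟩
  have : NeZero ((p - 1) * p) := ⟨Nat.mul_ne_zero (NeZero.ne _) (NeZero.ne _)⟩
  have hcop : (p - 1).Coprime p := by
    have := (Nat.coprime_self_add_right (m := p - 1) (n := 1)).mpr (Nat.coprime_one_right _)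
    rwa [Nat.sub_add_cancel (by omega)] at this
  let φ := ZMod.chineseRemainder hcop
  set κ := p / (2 * k) with hκ
  have hκ1 : κ * (2 * k) ≤ p := Nat.div_mul_le_self _ _
  have hκ2 : p < (κ + 1) * (2 * k) := by
    have := Nat.lt_div_mul_add (a := p) (b := 2 * k) (by omega)
    rw [← hκ] at this
    nlinarith
  have hκp : κ < p := by nlinarith
  let C : Finset (ZMod ((p - 1) * p)) := (thin p κ).map φ.symm.toEquiv.toEmbedding
  have hCcard : C.card = (thin p κ).card := card_map _
  have hmemC : ∀ x, x ∈ C ↔ φ x ∈ thin p κ := by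
    intro x
    simp only [C, mem_map, Equiv.coe_toEmbedding]
    constructor
    · rintro ⟨y, hy, rfl⟩
      have : φ (φ.symm.toEquiv y) = y := φ.apply_symm_apply y
      rw [this]; exact hy
    · intro h
      exact ⟨φ x, h, φ.symm_apply_apply x⟩
  refine ⟨(p - 1) * p, ?_, Nat.pos_of_ne_zero (NeZero.ne _), C, ?_, ?_⟩
  · have h1 : B ≤ p := (le_max_left _ _).trans hpB
    have h2 : 1 ≤ p - 1 := by omega
    nlinarith
  · rw [hCcard]
    have h1 := card_thin_le p κ
    have h2 : k * κ ≤ p := by nlinarith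
    calc k * (thin p κ).card ≤ k * ((p - 1) * κ) := Nat.mul_le_mul_left _ h1
      _ = (p - 1) * (k * κ) := by ring
      _ ≤ (p - 1) * p := Nat.mul_le_mul_left _ h2
  · intro D hD F hF
    obtain ⟨D', hD'D, hD'⟩ := exists_subset_card_eq hD
    have hcorr : ∀ g : ZMod ((p - 1) * p), g ≠ 0 →
        (C.filter (fun c => c + g ∈ C)).card ≤ 4 * κ ^ 2 := by
      intro g hg
      refine le_trans ?_ (corr_thin p hp2 hκp (φ g) (fun h => hg (by
        have := congrArg φ.symm h
        simpa using this)))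
      apply card_le_card_of_injOn φ
      · intro c hc
        simp only [coe_filter, Set.mem_ofPred_eq, hmemC, map_add] at hc ⊢
        exact hc
      · intro c _ c' _ h
        exact φ.injective h
    have h1 := cover_of_corr C (4 * κ ^ 2) hcorr D'
    set U := (univ.filter (fun e => ∃ d ∈ D', e - d ∈ C)) with hU
    have h2 : U.card + F.card ≤ (p - 1) * p := by
      have hdisj : Disjoint U F := by
        rw [disjoint_left]
        intro e he heF
        rw [hU, mem_filter] at he
        obtain ⟨_, d, hd, hC⟩ := he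
        exact hF e heF d (hD'D hd) hC
      rw [← card_union_of_disjoint hdisj]
      refine (card_le_univ _).trans ?_
      rw [ZMod.card]
    rw [hD', hCcard] at h1
    have h3 := le_card_thin p hκp
    have h4 := card_thin_le p κ
    set c := (thin p κ).card with hc
    -- `k² c² ≤ U (k c + 4 k² κ²)`
    have hκpos : 0 < κ := by
      rw [hκ]
      apply Nat.div_pos (by omega) (by omega)
    have h5 : (p - 1) * p ≤ 20 * U.card := by
      by_contra hcon
      push Not at hcon
      obtain ⟨P, rfl⟩ : ∃ P, p = P + 2 := ⟨p - 2, by omega⟩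
      simp only [Nat.add_sub_cancel, show P + 2 - 1 = P + 1 by omega] at *
      -- real arithmetic
      have e1 : k ^ 2 * c ^ 2 ≤ U.card * (k * c + 4 * k ^ 2 * κ ^ 2) := by nlinarith
      have e2 : 20 * (k ^ 2 * c ^ 2) < (P + 1) * (P + 2) * (k * c + 4 * k ^ 2 * κ ^ 2) := by
        have hpos : 0 < k * c + 4 * k ^ 2 * κ ^ 2 := by positivity
        calc 20 * (k ^ 2 * c ^ 2) ≤ 20 * (U.card * (k * c + 4 * k ^ 2 * κ ^ 2)) :=
              Nat.mul_le_mul_left _ e1
          _ = (20 * U.card) * (k * c + 4 * k ^ 2 * κ ^ 2) := by ring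
          _ < _ := Nat.mul_lt_mul_of_pos_right hcon hpos
      have e3 : k * (20 * (k * c ^ 2)) < k * ((P + 1) * (P + 2) * (c + 4 * k * κ ^ 2)) := by
        calc k * (20 * (k * c ^ 2)) = 20 * (k ^ 2 * c ^ 2) := by ring
          _ < _ := e2
          _ = _ := by ring
      have e4 : 20 * (k * c ^ 2) < (P + 1) * (P + 2) * (c + 4 * k * κ ^ 2) :=
        Nat.lt_of_mul_lt_mul_left e3
      have a1 : 49 * (P + 2) ≤ 50 * (κ * (2 * k)) := by
        have : (κ + 1) * (2 * k) = κ * (2 * k) + 2 * k := by ring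
        omega
      have a3 : c + 4 * k * κ ^ 2 ≤ κ * (3 * P + 5) := by
        have : 4 * k * κ ^ 2 = 2 * κ * (κ * (2 * k)) := by ring
        have h7 : 2 * κ * (κ * (2 * k)) ≤ 2 * κ * (P + 2) := Nat.mul_le_mul_left _ hκ1
        rw [this]
        nlinarith
      have a4 : k * (P ^ 2 * κ ^ 2) ≤ k * c ^ 2 := by
        apply Nat.mul_le_mul_left
        calc P ^ 2 * κ ^ 2 = (P * κ) ^ 2 := by ring
          _ ≤ c ^ 2 := Nat.pow_le_pow_left h3 2
      have e5 : κ * (20 * (k * κ * P ^ 2)) < κ * ((P + 1) * (P + 2) * (3 * P + 5)) := by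
        calc κ * (20 * (k * κ * P ^ 2)) = 20 * (k * (P ^ 2 * κ ^ 2)) := by ring
          _ ≤ 20 * (k * c ^ 2) := Nat.mul_le_mul_left _ a4
          _ < (P + 1) * (P + 2) * (c + 4 * k * κ ^ 2) := e4
          _ ≤ (P + 1) * (P + 2) * (κ * (3 * P + 5)) := Nat.mul_le_mul_left _ a3
          _ = _ := by ring
      have e6 : 20 * (k * κ * P ^ 2) < (P + 1) * (P + 2) * (3 * P + 5) :=
        Nat.lt_of_mul_lt_mul_left e5
      have e7 : (P + 2) * (490 * P ^ 2) < (P + 2) * (50 * ((P + 1) * (3 * P + 5))) := by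
        calc (P + 2) * (490 * P ^ 2) = 10 * P ^ 2 * (49 * (P + 2)) := by ring
          _ ≤ 10 * P ^ 2 * (50 * (κ * (2 * k))) := Nat.mul_le_mul_left _ a1
          _ = 50 * (20 * (k * κ * P ^ 2)) := by ring
          _ < 50 * ((P + 1) * (P + 2) * (3 * P + 5)) := by omega
          _ = _ := by ring
      have e8 : 490 * P ^ 2 < 50 * ((P + 1) * (3 * P + 5)) := Nat.lt_of_mul_lt_mul_left e7
      have hP : 98 ≤ P := by omega
      nlinarith
    omega

end Pool.Agent.W913.NA
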