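import Mathlib

/-! Counting the cells met by a set with restricted digits. -/

namespace Pool.Agent.W913.NA

open Set MeasureTheory

/-- the indices of the cells of length `1/q` met by `S` -/
def fl (q : ℕ) (S : Set ℝ) : Set ℤ := (fun x : ℝ => ⌊(q : ℝ) * x⌋) '' S

theorem floor_mul_div {q M : ℕ} (hM : 0 < M) (x : ℝ) :
    ⌊((q * M : ℕ) : ℝ) * x⌋ / (M : ℤ) = ⌊(q : ℝ) * x⌋ := by
  rw [← Int.floor_div_natCast]
  congr 1
  have : (M : ℝ) ≠ 0 := by positivity
  push_cast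
  field_simp

theorem fl_step {q M : ℕ} (hM : 0 < M) {S : Set ℝ} {F : Finset (ZMod M)}
    (hfin : (fl q S).Finite)
    (hF : ∀ x ∈ S, ((⌊((q * M : ℕ) : ℝ) * x⌋ : ℤ) : ZMod M) ∈ F) :
    (fl (q * M) S).Finite ∧ (fl (q * M) S).ncard ≤ (fl q S).ncard * F.card := by
  classical
  let g : ℤ → ℤ × ZMod M := fun j => (j / M, (j : ZMod M))
  have hg : Function.Injective g := by
    intro j j' h
    simp only [g, Prod.mk.injEq] at h
    obtain ⟨h1, h2⟩ := h
    rw [ZMod.intCast_eq_intCast_iff'] at h2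
    rw [← Int.mul_ediv_add_emod j M, ← Int.mul_ediv_add_emod j' M, h1, h2]
  have hsub : g '' (fl (q * M) S) ⊆ (fl q S) ×ˢ (F : Set (ZMod M)) := by
    rintro _ ⟨_, ⟨x, hx, rfl⟩, rfl⟩
    refine ⟨⟨x, hx, ?_⟩, hF x hx⟩
    exact (floor_mul_div hM x).symm
  have hfin2 : ((fl q S) ×ˢ (F : Set (ZMod M))).Finite := hfin.prod F.finite_toSet
  have hfin3 : (fl (q * M) S).Finite := (hfin2.subset hsub).of_finite_image hg.injOn
  refine ⟨hfin3, ?_⟩
  rw [← ncard_image_of_injective _ hg]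
  refine (ncard_le_ncard hsub hfin2).trans ?_
  rw [ncard_prod, ncard_coe_finset]

theorem fl_iterate {q M : ℕ → ℕ} (hM : ∀ n, 0 < M n) (hq : ∀ n, q (n + 1) = q n * M n)
    {S : Set ℝ} {F : ∀ n, Finset (ZMod (M n))} {m : ℕ} (hfin : (fl (q m) S).Finite)
    (hF : ∀ x ∈ S, ∀ n, m ≤ n → ((⌊(q (n + 1) : ℝ) * x⌋ : ℤ) : ZMod (M n)) ∈ F n) (n : ℕ)
    (hn : m ≤ n) : (fl (q n) S).Finite ∧
      (fl (q n) S).ncard ≤ (fl (q m) S).ncard * ∏ i ∈ Finset.Ico m n, (F i).card := by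
  induction n, hn using Nat.le_induction with
  | base => simp [hfin]
  | succ n hn ih =>
    have h := fl_step (hM n) ih.1 (F := F n) (fun x hx => by
      rw [← hq]; exact hF x hx n hn)
    rw [← hq] at h
    refine ⟨h.1, h.2.trans ?_⟩
    rw [Finset.prod_Ico_succ_top hn, ← mul_assoc]
    exact Nat.mul_le_mul_right _ ih.2

theorem fl_box {q L : ℕ} {S : Set ℝ} (hS : S ⊆ Ico (-(L : ℝ)) L) :
    (fl q S).Finite ∧ (fl q S).ncard ≤ 2 * L * q + 1 := by
  have hsub : fl q S ⊆ (Finset.Icc (-((L * q : ℕ) : ℤ)) ((L * q : ℕ) : ℤ) : Set ℤ) := by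
    rintro _ ⟨x, hx, rfl⟩
    obtain ⟨h1, h2⟩ := hS hx
    simp only [Finset.coe_Icc, mem_Icc]
    constructor
    · rw [Int.le_floor]
      push_cast
      have : (0 : ℝ) ≤ q := by positivity
      nlinarith
    · rw [← Int.cast_le (R := ℝ)]
      refine (Int.floor_le _).trans ?_
      push_cast
      have : (0 : ℝ) ≤ q := by positivity
      nlinarith
  refine ⟨(Finset.finite_toSet _).subset hsub, ?_⟩
  refine (ncard_le_ncard hsub (Finset.finite_toSet _)).trans ?_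
  rw [ncard_coe_finset, Int.card_Icc]
  have : (2 * L * q + 1 : ℕ) = 2 * (L * q) + 1 := by ring
  rw [this]
  omega

theorem volume_le_fl {q : ℕ} (hq : 0 < q) {S : Set ℝ} (hfin : (fl q S).Finite) :
    volume S ≤ ENNReal.ofReal (((fl q S).ncard : ℝ) / q) := by
  classical
  have hq' : (0 : ℝ) < q := by exact_mod_cast hq
  have hsub : S ⊆ ⋃ j ∈ hfin.toFinset, Ico ((j : ℝ) / q) (((j : ℝ) + 1) / q) := by
    intro x hx
    simp only [mem_iUnion, Set.Finite.mem_toFinset]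
    refine ⟨⌊(q : ℝ) * x⌋, ⟨x, hx, rfl⟩, ?_, ?_⟩
    · rw [div_le_iff₀ hq', mul_comm x]
      exact Int.floor_le _
    · rw [lt_div_iff₀ hq', mul_comm x]
      exact Int.lt_floor_add_one _
  refine (measure_mono hsub).trans ((measure_biUnion_finset_le _ _).trans ?_)
  have h1 : ∀ j ∈ hfin.toFinset, volume (Ico ((j : ℝ) / q) (((j : ℝ) + 1) / q)) =
      ENNReal.ofReal (1 / q) := by
    intro j _
    rw [Real.volume_Ico]
    congr 1
    ring
  rw [Finset.sum_congr rfl h1, Finset.sum_const, nsmul_eq_mul,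
    ← ncard_eq_toFinset_card _ hfin, ← ENNReal.ofReal_natCast,
    ← ENNReal.ofReal_mul (by positivity)]
  apply ENNReal.ofReal_le_ofReal
  apply le_of_eq
  ring

end Pool.Agent.W913.NA
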