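import Pool.Agent.W913.NA.Count
import Pool.Agent.W913.NA.Comb

/-! The digits of the elements of a null-additive set of reals. -/

namespace Pool.Agent.W913.NA

open Set MeasureTheory Filter Topology
open scoped Pointwise

/-- the `n`-th digit of `x` -/
noncomputable def dig (q M : ℕ → ℕ) (n : ℕ) (x : ℝ) : ZMod (M n) :=
  ((⌊(q (n + 1) : ℝ) * x⌋ : ℤ) : ZMod (M n))

/-- the open set attached to level `n` -/
def U (q M : ℕ → ℕ) (C : ∀ n, Finset (ZMod (M n))) (n : ℕ) : Set ℝ :=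
  {z | ∃ j : ℤ, (j : ZMod (M n)) ∈ C n ∧ (j : ℝ) - 1 < (q (n + 1) : ℝ) * z ∧
    (q (n + 1) : ℝ) * z < (j : ℝ) + 1}

theorem isOpen_U (q M : ℕ → ℕ) (C : ∀ n, Finset (ZMod (M n))) (n : ℕ) : IsOpen (U q M C n) := by
  have : U q M C n = ⋃ j : ℤ, ⋃ _ : (j : ZMod (M n)) ∈ C n,
      (fun z : ℝ => (q (n + 1) : ℝ) * z) ⁻¹' Ioo ((j : ℝ) - 1) ((j : ℝ) + 1) := by
    ext z
    simp only [U, mem_ofPred_eq, mem_iUnion, mem_preimage, mem_Ioo, exists_prop]
  rw [this]
  exact isOpen_iUnion fun j => isOpen_iUnion fun _ =>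
    isOpen_Ioo.preimage (continuous_const.mul continuous_id)

theorem dig_sub_of_notMem {q M : ℕ → ℕ} {C : ∀ n, Finset (ZMod (M n))} {n : ℕ} {z x : ℝ}
    (h : z - x ∉ U q M C n) : dig q M n z - dig q M n x ∉ C n := by
  intro hC
  apply h
  refine ⟨⌊(q (n + 1) : ℝ) * z⌋ - ⌊(q (n + 1) : ℝ) * x⌋, ?_, ?_, ?_⟩
  · push_cast
    exact hC
  · have h1 := Int.floor_le ((q (n + 1) : ℝ) * z)
    have h2 := Int.lt_floor_add_one ((q (n + 1) : ℝ) * x)
    push_cast
    linarith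
  · have h1 := Int.floor_le ((q (n + 1) : ℝ) * x)
    have h2 := Int.lt_floor_add_one ((q (n + 1) : ℝ) * z)
    push_cast
    linarith

section

variable {q M : ℕ → ℕ} (hq0 : 0 < q 0) (hM : ∀ n, 0 < M n) (hq : ∀ n, q (n + 1) = q n * M n)
  {C : ∀ n, Finset (ZMod (M n))}

include hq0 hM hq

theorem q_pos (n : ℕ) : 0 < q n := by
  induction n with
  | zero => exact hq0
  | succ n ih => rw [hq]; exact Nat.mul_pos ih (hM n)

theorem q_prod {m n : ℕ} (h : m ≤ n) : q n = q m * ∏ i ∈ Finset.Ico m n, M i := by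
  induction n, h using Nat.le_induction with
  | base => simp
  | succ n hn ih => rw [Finset.prod_Ico_succ_top hn, hq, ih, mul_assoc]

theorem volume_U_le (hC : ∀ n, 2 ^ n * (C n).card ≤ M n) (L n : ℕ) :
    volume (U q M C n ∩ Ico (-(L : ℝ)) L) ≤ ENNReal.ofReal ((4 * L + 2) * (1 / 2) ^ n) := by
  classical
  have hqn := q_pos hq0 hM hq n
  obtain ⟨h1, h2⟩ := fl_box (q := q n) (L := L) (S := U q M C n ∩ Ico (-(L : ℝ)) L)
    inter_subset_right
  have hF : ∀ x ∈ U q M C n ∩ Ico (-(L : ℝ)) L,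
      ((⌊((q n * M n : ℕ) : ℝ) * x⌋ : ℤ) : ZMod (M n)) ∈
        C n ∪ (C n).image (fun c => c - 1) := by
    rintro x ⟨⟨j, hj, hj1, hj2⟩, _⟩
    rw [← hq]
    have h3 : ⌊(q (n + 1) : ℝ) * x⌋ = j ∨ ⌊(q (n + 1) : ℝ) * x⌋ = j - 1 := by
      have e1 : ⌊(q (n + 1) : ℝ) * x⌋ < j + 1 := by
        rw [Int.floor_lt]; push_cast; exact hj2
      have e2 : j - 1 ≤ ⌊(q (n + 1) : ℝ) * x⌋ := by
        rw [Int.le_floor]; push_cast; exact hj1.le
      omega
    rcases h3 with h3 | h3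
    · rw [h3]
      exact Finset.mem_union_left _ hj
    · rw [h3]
      apply Finset.mem_union_right
      rw [Finset.mem_image]
      exact ⟨(j : ZMod (M n)), hj, by push_cast; rfl⟩
  obtain ⟨h3, h4⟩ := fl_step (hM n) h1 hF
  rw [← hq] at h3 h4
  have hqn1 := q_pos hq0 hM hq (n + 1)
  refine (volume_le_fl hqn1 h3).trans (ENNReal.ofReal_le_ofReal ?_)
  have h5 : (C n ∪ (C n).image (fun c => c - 1)).card ≤ 2 * (C n).card := by
    refine (Finset.card_union_le _ _).trans ?_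
    have := Finset.card_image_le (s := C n) (f := fun c => c - 1)
    omega
  have h6 : (fl (q (n + 1)) (U q M C n ∩ Ico (-(L : ℝ)) L)).ncard ≤
      (2 * L * q n + 1) * (2 * (C n).card) := h4.trans (Nat.mul_le_mul h2 h5)
  have h7 : (2 ^ n : ℝ) * (C n).card ≤ M n := by exact_mod_cast hC n
  have hq1 : (1 : ℝ) ≤ q n := by exact_mod_cast hqn
  have hMp : (0 : ℝ) < M n := by exact_mod_cast hM n
  have hqp : (0 : ℝ) < q n := by linarith
  rw [div_le_iff₀ (by exact_mod_cast hqn1), hq]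
  push_cast
  have h8 : ((fl (q (n + 1)) (U q M C n ∩ Ico (-(L : ℝ)) L)).ncard : ℝ) ≤
      (2 * L * q n + 1) * (2 * (C n).card) := by exact_mod_cast h6
  have h9 : ((C n).card : ℝ) ≤ (1 / 2) ^ n * M n := by
    rw [one_div, inv_pow, ← div_eq_inv_mul, le_div_iff₀ (by positivity)]
    linarith
  have hL : (0 : ℝ) ≤ L := by positivity
  have h10 : (0 : ℝ) ≤ (1 / 2) ^ n * M n := by positivity
  rw [← hq] 
  refine h8.trans ?_
  calc (2 * L * (q n : ℝ) + 1) * (2 * (C n).card)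
      ≤ (2 * L * (q n : ℝ) + q n) * (2 * ((1 / 2) ^ n * M n)) := by gcongr
    _ = (4 * L + 2) * (1 / 2) ^ n * (q n * M n) := by ring

theorem null_limsup (hC : ∀ n, 2 ^ n * (C n).card ≤ M n) :
    volume {z : ℝ | ∃ᶠ n in atTop, z ∈ U q M C n} = 0 := by
  have h1 : ∀ L : ℕ, volume {z : ℝ | ∃ᶠ n in atTop, z ∈ U q M C n ∩ Ico (-(L : ℝ)) L} = 0 := by
    intro L
    apply measure_setOfPred_frequently_eq_zero
    refine ne_top_of_le_ne_top ?_ (ENNReal.tsum_le_tsum (volume_U_le hq0 hM hq hC L))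
    have hs : Summable (fun n : ℕ => (4 * (L : ℝ) + 2) * (1 / 2) ^ n) :=
      (summable_geometric_of_lt_one (by norm_num) (by norm_num)).mul_left _
    rw [← ENNReal.ofReal_tsum_of_nonneg (fun n => by positivity) hs]
    exact ENNReal.ofReal_ne_top
  have h2 : {z : ℝ | ∃ᶠ n in atTop, z ∈ U q M C n} ⊆
      ⋃ L : ℕ, {z : ℝ | ∃ᶠ n in atTop, z ∈ U q M C n ∩ Ico (-(L : ℝ)) L} := by
    intro z hz
    obtain ⟨L, hL⟩ := exists_nat_gt |z|
    rw [mem_iUnion]
    refine ⟨L, ?_⟩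
    obtain ⟨h3, h4⟩ := abs_lt.mp hL
    exact hz.mono (fun n hn => ⟨hn, h3.le, h4⟩)
  exact measure_mono_null h2 (measure_iUnion_null h1)

theorem null_of_frequently {S : Set ℝ} {L : ℕ} (hS : S ⊆ Ico (-(L : ℝ)) L)
    {F : ∀ n, Finset (ZMod (M n))} {m : ℕ} (hF : ∀ x ∈ S, ∀ n, m ≤ n → dig q M n x ∈ F n)
    (hfreq : ∃ᶠ n in atTop, 20 * (F n).card ≤ 19 * M n) : volume S = 0 := by
  classical
  have hcard : ∀ n, (F n).card ≤ M n := by
    intro n
    have : NeZero (M n) := ⟨(hM n).ne'⟩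
    refine (Finset.card_le_univ _).trans ?_
    rw [ZMod.card]
  obtain ⟨h1, h2⟩ := fl_box (q := q m) hS
  have hit := fl_iterate hM hq h1 hF
  have key : ∀ N : ℕ, ∃ n, m ≤ n ∧ 20 ^ N * ∏ i ∈ Finset.Ico m n, (F i).card ≤
      19 ^ N * ∏ i ∈ Finset.Ico m n, M i := by
    intro N
    induction N with
    | zero => exact ⟨m, le_rfl, by simp⟩
    | succ N ih =>
      obtain ⟨n, hmn, hn⟩ := ih
      obtain ⟨n', hnn', hn'⟩ := frequently_atTop.mp hfreq n
      refine ⟨n' + 1, by omega, ?_⟩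
      rw [Finset.prod_Ico_succ_top (by omega), Finset.prod_Ico_succ_top (by omega),
        ← Finset.prod_Ico_consecutive _ hmn hnn', ← Finset.prod_Ico_consecutive _ hmn hnn']
      have h3 : ∏ i ∈ Finset.Ico n n', (F i).card ≤ ∏ i ∈ Finset.Ico n n', M i :=
        Finset.prod_le_prod' (fun i _ => hcard i)
      calc 20 ^ (N + 1) * ((∏ i ∈ Finset.Ico m n, (F i).card) *
            (∏ i ∈ Finset.Ico n n', (F i).card) * (F n').card)
          = (20 ^ N * ∏ i ∈ Finset.Ico m n, (F i).card) *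
            (∏ i ∈ Finset.Ico n n', (F i).card) * (20 * (F n').card) := by ring
        _ ≤ (19 ^ N * ∏ i ∈ Finset.Ico m n, M i) * (∏ i ∈ Finset.Ico n n', M i) *
            (19 * M n') := by gcongr
        _ = _ := by ring
  have hbound : ∀ N : ℕ, volume S ≤
      ENNReal.ofReal (((fl (q m) S).ncard : ℝ) * (19 / 20) ^ N) := by
    intro N
    obtain ⟨n, hmn, hn⟩ := key N
    have hqn := q_pos hq0 hM hq n
    refine (volume_le_fl hqn (hit n hmn).1).trans (ENNReal.ofReal_le_ofReal ?_)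
    rw [div_le_iff₀ (by exact_mod_cast hqn)]
    have h3 := (hit n hmn).2
    have h4 := q_prod hq0 hM hq hmn
    have h5 : ((fl (q n) S).ncard : ℝ) ≤
        (fl (q m) S).ncard * ∏ i ∈ Finset.Ico m n, ((F i).card : ℝ) := by exact_mod_cast h3
    have h6 : (20 : ℝ) ^ N * ∏ i ∈ Finset.Ico m n, ((F i).card : ℝ) ≤
      19 ^ N * ∏ i ∈ Finset.Ico m n, (M i : ℝ) := by exact_mod_cast hn
    have h7 : ∏ i ∈ Finset.Ico m n, ((F i).card : ℝ) ≤
        (19 / 20) ^ N * ∏ i ∈ Finset.Ico m n, (M i : ℝ) := by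
      rw [div_pow, div_mul_eq_mul_div, le_div_iff₀ (by positivity)]
      linarith
    have h8 : (1 : ℝ) ≤ q m := by exact_mod_cast q_pos hq0 hM hq m
    have h9 : (q n : ℝ) = q m * ∏ i ∈ Finset.Ico m n, (M i : ℝ) := by
      rw [h4]; push_cast; rfl
    have h10 : (0 : ℝ) ≤ ∏ i ∈ Finset.Ico m n, (M i : ℝ) :=
      Finset.prod_nonneg (fun i _ => by positivity)
    calc ((fl (q n) S).ncard : ℝ) ≤
          (fl (q m) S).ncard * ∏ i ∈ Finset.Ico m n, ((F i).card : ℝ) := h5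
      _ ≤ (fl (q m) S).ncard * ((19 / 20) ^ N * ∏ i ∈ Finset.Ico m n, (M i : ℝ)) := by
          gcongr
      _ = (fl (q m) S).ncard * (19 / 20) ^ N * (1 * ∏ i ∈ Finset.Ico m n, (M i : ℝ)) := by ring
      _ ≤ (fl (q m) S).ncard * (19 / 20) ^ N * (q m * ∏ i ∈ Finset.Ico m n, (M i : ℝ)) := by
          gcongr
      _ = _ := by rw [h9]
  have hlim : Tendsto (fun N : ℕ => ENNReal.ofReal (((fl (q m) S).ncard : ℝ) * (19 / 20) ^ N))
      atTop (𝓝 0) := by
    rw [← ENNReal.ofReal_zero]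
    apply ENNReal.tendsto_ofReal
    have := (tendsto_pow_atTop_nhds_zero_of_lt_one (r := (19 / 20 : ℝ)) (by norm_num)
      (by norm_num)).const_mul ((fl (q m) S).ncard : ℝ)
    rwa [mul_zero] at this
  exact le_antisymm (ge_of_tendsto' hlim hbound) bot_le

/-- The digits of the elements of a null-additive set. -/
theorem digits_of_nullAdditive {X : Set ℝ} (hX : ∀ N : Set ℝ, volume N = 0 → volume (X + N) = 0)
    (hC : ∀ n, 2 ^ n * (C n).card ≤ M n)
    (hC2 : ∀ n, ∀ D : Finset (ZMod (M n)), 2 ^ n ≤ D.card →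
      ∀ F : Finset (ZMod (M n)), (∀ e ∈ F, ∀ d ∈ D, e - d ∉ C n) → 20 * F.card ≤ 19 * M n) :
    ∃ I : ∀ n, Finset (ZMod (M n)), (∀ n, (I n).card ≤ (n + 1) * 2 ^ n) ∧
      ∀ x ∈ X, ∀ᶠ n in atTop, dig q M n x ∈ I n := by
  classical
  have hne : ∀ n, NeZero (M n) := fun n => ⟨(hM n).ne'⟩
  set N : Set ℝ := {z : ℝ | ∃ᶠ n in atTop, z ∈ U q M C n} with hN
  have hXN : volume (X + N) = 0 := hX N (null_limsup hq0 hM hq hC)
  -- the compact set
  set Z := toMeasurable volume (X + N) with hZ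
  have hZ0 : volume Z = 0 := by rw [hZ, measure_toMeasurable, hXN]
  have hmeas : MeasurableSet (Ico (0 : ℝ) 1 \ Z) :=
    measurableSet_Ico.diff (measurableSet_toMeasurable _ _)
  have hpos : 0 < volume (Ico (0 : ℝ) 1 \ Z) := by
    rw [measure_sdiff_null hZ0, Real.volume_Ico]
    simp
  obtain ⟨P0, hP0s, hP0c, hP0⟩ := hmeas.exists_lt_isCompact hpos
  let bas := TopologicalSpace.countableBasis ℝ
  have hbasis : TopologicalSpace.IsTopologicalBasis bas := TopologicalSpace.isBasis_countableBasis ℝ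
  have hbc : bas.Countable := TopologicalSpace.countable_countableBasis ℝ
  let O : Set ℝ := ⋃ V ∈ {V ∈ bas | volume (P0 ∩ V) = 0}, V
  have hO : IsOpen O := isOpen_biUnion fun V hV => hbasis.isOpen hV.1
  have hO0 : volume (P0 ∩ O) = 0 := by
    have : P0 ∩ O = ⋃ V ∈ {V ∈ bas | volume (P0 ∩ V) = 0}, P0 ∩ V := by
      simp only [O, inter_iUnion]
    rw [this, measure_biUnion_null_iff (hbc.mono (fun V hV => hV.1))]
    exact fun V hV => hV.2
  set P : Set ℝ := P0 \ O with hP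
  have hPc : IsCompact P := hP0c.diff hO
  have hPV : ∀ V ∈ bas, (P ∩ V).Nonempty → volume (P ∩ V) ≠ 0 := by
    rintro V hV ⟨z, hzP, hzV⟩ h0
    have h1 : volume (P0 ∩ V) = 0 := by
      have h2 : P0 ∩ V ⊆ (P ∩ V) ∪ (P0 ∩ O) := by
        rintro w ⟨hw1, hw2⟩
        by_cases hwO : w ∈ O
        · exact Or.inr ⟨hw1, hwO⟩
        · exact Or.inl ⟨⟨hw1, hwO⟩, hw2⟩
      exact measure_mono_null h2 (measure_union_null h0 hO0)
    apply hzP.2
    simp only [O, mem_iUnion]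
    exact ⟨V, ⟨hV, h1⟩, hzV⟩
  have hPne : P.Nonempty := by
    by_contra hcon
    rw [not_nonempty_iff_eq_empty] at hcon
    have h2 : P0 ⊆ P0 ∩ O := by
      intro w hw
      refine ⟨hw, ?_⟩
      by_contra hwO
      have : w ∈ P := ⟨hw, hwO⟩
      rw [hcon] at this
      exact this
    exact hP0.ne' (measure_mono_null h2 hO0)
  have hPbox : P ⊆ Ico (-((1 : ℕ) : ℝ)) (1 : ℕ) := by
    intro z hz
    have h1 := (hP0s hz.1).1
    exact ⟨by push_cast; linarith [h1.1], by push_cast; exact h1.2⟩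
  have hPdisj : ∀ z ∈ P, ∀ x ∈ X, ∀ᶠ n in atTop, z - x ∉ U q M C n := by
    intro z hz x hx
    have h1 := (hP0s hz.1).2
    have h2 : z ∉ X + N := fun h => h1 (subset_toMeasurable _ _ h)
    have h3 : z - x ∉ N := fun h => h2 ⟨x, hx, z - x, h, by ring⟩
    rw [hN, mem_ofPred_eq, not_frequently] at h3
    exact h3
  -- the classes
  let cls : Set ℝ → ℕ → Set ℝ := fun V m =>
    {x | (P ∩ V).Nonempty ∧ ∀ z ∈ P ∩ V, ∀ n, m ≤ n → z - x ∉ U q M C n}
  have hcls : ∀ x ∈ X, ∃ V ∈ bas, ∃ m, x ∈ cls V m := by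
    intro x hx
    have : CompactSpace P := isCompact_iff_compactSpace.mp hPc
    have : Nonempty P := hPne.to_subtype
    let A : ℕ → Set P := fun m => {z | ∀ n, m ≤ n → z.1 - x ∉ U q M C n}
    have hA : ∀ m, IsClosed (A m) := by
      intro m
      have : A m = ⋂ n, ⋂ _ : m ≤ n, (fun z : P => z.1 - x) ⁻¹' (U q M C n)ᶜ := by
        ext z
        simp [A]
      rw [this]
      exact isClosed_iInter fun n => isClosed_iInter fun _ =>
        (isOpen_U q M C n).isClosed_compl.preimage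
          (continuous_subtype_val.sub continuous_const)
    have hAU : ⋃ m, A m = univ := by
      rw [eq_univ_iff_forall]
      intro z
      rw [mem_iUnion]
      obtain ⟨m, hm⟩ := eventually_atTop.mp (hPdisj z.1 z.2 x hx)
      exact ⟨m, fun n hn => hm n hn⟩
    obtain ⟨m, ⟨z, hz⟩⟩ := nonempty_interior_of_iUnion_of_closed hA hAU
    rw [mem_interior] at hz
    obtain ⟨W, hWA, hWo, hzW⟩ := hz
    obtain ⟨W', hW'o, rfl⟩ := isOpen_induced_iff.mp hWo
    obtain ⟨V, hV, hzV, hVW⟩ := hbasis.exists_subset_of_mem_open (show z.1 ∈ W' from hzW) hW'o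
    refine ⟨V, hV, m, ⟨z.1, z.2, hzV⟩, ?_⟩
    rintro w ⟨hwP, hwV⟩ n hn
    exact hWA (show (⟨w, hwP⟩ : P) ∈ Subtype.val ⁻¹' W' from hVW hwV) n hn
  -- few digits
  let Dg : Set ℝ → ℕ → ∀ n, Finset (ZMod (M n)) := fun V m n =>
    @Finset.filter (ZMod (M n)) (fun d => ∃ x ∈ cls V m, dig q M n x = d)
      (Classical.decPred _) (@Finset.univ _ (@ZMod.fintype _ (hne n)))
  have hDg : ∀ V m n d, d ∈ Dg V m n ↔ ∃ x ∈ cls V m, dig q M n x = d := by
    intro V m n d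
    simp [Dg]
  have hfew : ∀ V ∈ bas, ∀ m, ∀ᶠ n in atTop, (Dg V m n).card ≤ 2 ^ n := by
    intro V hV m
    by_contra hcon
    rw [not_eventually] at hcon
    have hcon' : ∃ᶠ n in atTop, 2 ^ n ≤ (Dg V m n).card :=
      hcon.mono (fun n hn => (not_le.mp hn).le)
    -- the class is nonempty
    obtain ⟨n0, hn0⟩ := (hcon.exists)
    have hx0 : (P ∩ V).Nonempty := by
      have : 0 < (Dg V m n0).card := lt_of_le_of_lt (Nat.zero_le _) (not_le.mp hn0)
      obtain ⟨d, hd⟩ := Finset.card_pos.mp this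
      obtain ⟨x, hx, _⟩ := (hDg V m n0 d).mp hd
      exact hx.1
    let F : ∀ n, Finset (ZMod (M n)) := fun n =>
      @Finset.filter (ZMod (M n)) (fun e => ∀ d ∈ Dg V m n, e - d ∉ C n)
        (Classical.decPred _) (@Finset.univ _ (@ZMod.fintype _ (hne n)))
    have hF : ∀ n e, e ∈ F n ↔ ∀ d ∈ Dg V m n, e - d ∉ C n := by
      intro n e
      simp [F]
    refine hPV V hV hx0 (null_of_frequently hq0 hM hq
      (inter_subset_left.trans hPbox) (F := F) (m := m) ?_ ?_)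
    · intro z hz n hn
      rw [hF]
      intro d hd
      obtain ⟨x, hx, rfl⟩ := (hDg V m n d).mp hd
      exact dig_sub_of_notMem (hx.2 z hz n hn)
    · exact hcon'.mono (fun n hn => hC2 n (Dg V m n) hn (F n)
        (fun e he d hd => (hF n e).mp he d hd))
  -- combine
  have hJc : Countable (bas × ℕ) := by
    have : Countable bas := hbc.to_subtype
    infer_instance
  have hJne : Nonempty (bas × ℕ) := by
    obtain ⟨z, hz⟩ := hPne
    obtain ⟨V, hV, _⟩ := hbasis.exists_subset_of_mem_open (mem_univ z) isOpen_univ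
    exact ⟨⟨⟨V, hV⟩, 0⟩⟩
  obtain ⟨f, hf⟩ := exists_surjective_nat (bas × ℕ)
  have hth : ∀ i : ℕ, ∃ Ni, ∀ n, Ni ≤ n → (Dg (f i).1.1 (f i).2 n).card ≤ 2 ^ n := fun i =>
    eventually_atTop.mp (hfew (f i).1.1 (f i).1.2 (f i).2)
  choose T hT using hth
  refine ⟨fun n => ((Finset.range (n + 1)).filter (fun i => T i ≤ n)).biUnion
    (fun i => Dg (f i).1.1 (f i).2 n), ?_, ?_⟩
  · intro n
    refine Finset.card_biUnion_le.trans ?_
    refine (Finset.sum_le_card_nsmul _ _ (2 ^ n) ?_).trans ?_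
    · intro i hi
      exact hT i n (Finset.mem_filter.mp hi).2
    · rw [smul_eq_mul]
      apply Nat.mul_le_mul_right
      refine (Finset.card_filter_le _ _).trans ?_
      rw [Finset.card_range]
  · intro x hx
    obtain ⟨V, hV, m, hxm⟩ := hcls x hx
    obtain ⟨i, hi⟩ := hf (⟨V, hV⟩, m)
    filter_upwards [eventually_ge_atTop (max i (T i))] with n hn
    rw [Finset.mem_biUnion]
    refine ⟨i, ?_, ?_⟩
    · rw [Finset.mem_filter, Finset.mem_range]
      exact ⟨by have := (le_max_left i (T i)).trans hn; omega, (le_max_right _ _).trans hn⟩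
    · rw [hi, hDg]
      exact ⟨x, hxm, rfl⟩

end

end Pool.Agent.W913.NA
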